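import Pool.Agent.H30.PF.FA
import Pool.Agent.H30.PF.GM
import Pool.Agent.H48.PF.BT
import Pool.Agent.H33.PF.EU
import Pool.Agent.H33.PF.EX
import Pool.Agent.H33.PF.M8
import Pool.Agent.H33.PF.TR
import Pool.Agent.H12.PF.MR
import Pool.Agent.H74.PF.E1
import Pool.Agent.H74.PF.E2
import Pool.Agent.H74.PF.PN
import Pool.Agent.H65.PF.RT
import Pool.Agent.H65.PF.SG

/-!
# MP_04ff0f_nt: almost all splits `n = k + m` have few prime factors

For every `ε > 0` there is `δ > 0` such that, for all large `n`, all but at most `n / (log n) ^ δ`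
of the splits `n = k + m` satisfy
`Ω(p_k ^ 2 - 2) ≤ (1 + ε) log log n`, `Ω(p_m ^ 2 - 2) ≤ (1 + ε) log log n` and
`Ω(p_{p_m} ^ 2 - 2) ≤ (e + ε) log log n`.
-/

set_option autoImplicit false

open Real

namespace Pool.Agent.Results.MP_04ff0f_nt.AlmostAllSplits

/-- The `j`-th prime, `j = 1, 2, ...`, so `p 1 = 2`. -/
noncomputable def p (j : ℕ) : ℕ := Nat.nth Nat.Prime (j - 1)

/-- The three numbers `p_k ^ 2 - 2`, `p_m ^ 2 - 2`, `p_{p_m} ^ 2 - 2` have, counted with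
multiplicity, at most `(1 + ε) log log n`, `(1 + ε) log log n`, `(e + ε) log log n` prime
factors. -/
def FewFactors (ε : ℝ) (n k m : ℕ) : Prop :=
  (ArithmeticFunction.cardFactors (p k ^ 2 - 2) : ℝ) ≤ (1 + ε) * log (log n) ∧
  (ArithmeticFunction.cardFactors (p m ^ 2 - 2) : ℝ) ≤ (1 + ε) * log (log n) ∧
  (ArithmeticFunction.cardFactors (p (p m) ^ 2 - 2) : ℝ) ≤ (exp 1 + ε) * log (log n)

open Classical in
theorem result : ∀ ε : ℝ, 0 < ε → ∃ (δ : ℝ) (n₀ : ℕ), 0 < δ ∧ ∀ n : ℕ, n₀ ≤ n →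
    (∃ k m : ℕ, 0 < k ∧ 0 < m ∧ k + m = n ∧ FewFactors ε n k m) ∧
    (((Finset.Ico 1 n).filter (fun k => ¬ FewFactors ε n k (n - k))).card : ℝ) ≤
      n / (log n) ^ δ := by
  have hGM := Pool.Agent.H30.PF.gm (Pool.Agent.H30.PF.tr Pool.Agent.H65.PF.sg)
    Pool.Agent.H65.PF.rt Pool.Agent.H48.PF.bt Pool.Agent.H30.PF.eu
  have hMR := Pool.Agent.H12.PF.mr
  have hEX := Pool.Agent.H30.PF.EX.ex (Pool.Agent.H74.PF.e1 hGM (Pool.Agent.H30.PF.M8.m8 hMR))
    (Pool.Agent.H74.PF.e2 hGM hMR)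
  have hFA := Pool.Agent.H30.PF.fa hEX Pool.Agent.H74.PF.pn
  intro ε hε
  obtain ⟨δ, n₀, hδ, h⟩ := hFA ε hε
  have hev : ∀ᶠ n : ℕ in Filter.atTop, (2 : ℝ) ≤ (log (n : ℝ)) ^ δ := by
    have h1 := (tendsto_rpow_atTop hδ).comp Pool.Agent.H30.PF.tends_log
    exact h1.eventually_ge_atTop 2
  obtain ⟨n₁, hn₁⟩ := Filter.eventually_atTop.1 hev
  refine ⟨δ, max (max n₀ n₁) 3, hδ, fun n hn => ?_⟩
  have hn0 : n₀ ≤ n := le_trans (le_trans (le_max_left _ _) (le_max_left _ _)) hn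
  have hn1 : n₁ ≤ n := le_trans (le_trans (le_max_right _ _) (le_max_left _ _)) hn
  have hn3 : 3 ≤ n := le_trans (le_max_right _ _) hn
  have hmain := h n hn0
  have hset : Finset.Ico 1 n = Finset.Icc 1 (n - 1) := by
    ext x
    simp only [Finset.mem_Ico, Finset.mem_Icc]
    omega
  have hcard : (((Finset.Ico 1 n).filter (fun k => ¬ FewFactors ε n k (n - k))).card : ℝ) ≤
      n / (log n) ^ δ := by
    rw [hset]
    exact hmain
  refine ⟨?_, hcard⟩
  by_contra hcon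
  push Not at hcon
  have hall : (Finset.Ico 1 n).filter (fun k => ¬ FewFactors ε n k (n - k)) = Finset.Ico 1 n := by
    refine Finset.filter_true_of_mem fun k hk => ?_
    rw [Finset.mem_Ico] at hk
    exact hcon k (n - k) (by omega) (by omega) (by omega)
  rw [hall, Nat.card_Ico] at hcard
  have h2 := hn₁ n hn1
  have h3 : (n : ℝ) / (log n) ^ δ ≤ n / 2 := by
    apply div_le_div_of_nonneg_left (Nat.cast_nonneg n) (by norm_num) h2
  have h4 : ((n - 1 : ℕ) : ℝ) = n - 1 := by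
    rw [Nat.cast_sub (by omega)]
    norm_num
  rw [h4] at hcard
  have h5 : (3 : ℝ) ≤ n := by exact_mod_cast hn3
  linarith

end Pool.Agent.Results.MP_04ff0f_nt.AlmostAllSplits
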