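import Pool.Agent.H30.PF.GM
import Pool.Agent.H48.PF.BT
import Pool.Agent.H33.PF.EU
import Pool.Agent.H33.PF.EX
import Pool.Agent.H33.PF.M8
import Pool.Agent.H33.PF.TR
import Pool.Agent.H12.PF.MR
import Pool.Agent.H74.PF.E1
import Pool.Agent.H74.PF.E2
import Pool.Agent.H74.PF.PN
import Pool.Agent.H65.PF.RT
import Pool.Agent.H65.PF.SG
import Pool.Agent.H3.BV.C4
import Pool.Agent.H3.BV.SB
import Pool.Agent.H4.BV.BV
import Pool.Agent.H4.BV.FT
import Pool.Agent.H4.BV.T1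
import Pool.Agent.H4.BV.T2
import Pool.Agent.H11.BV.DV
import Pool.Agent.H11.BV.RP
import Pool.Agent.H14.BV.FX
import Pool.Agent.H14.BV.LO
import Pool.Agent.H17.BV.AD
import Pool.Agent.H17.BV.S1
import Pool.Agent.H17.BV.TE
import Pool.Agent.H19.BV.LB
import Pool.Agent.H19.BV.LV
import Pool.Agent.H19.BV.VL
import Pool.Agent.H20.BV.ML
import Pool.Agent.H20.BV.PB
import Pool.Agent.H20.BV.ZB
import Pool.Agent.H24.BV.B0
import Pool.Agent.H24.BV.BU
import Pool.Agent.H29.BV.BL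
import Pool.Agent.H29.BV.RH
import Pool.Agent.H29.BV.XP
import Pool.Agent.H31.BV.TL
import Pool.Agent.H33.BV.PR
import Pool.Agent.H34.BV.PW
import Pool.Agent.H34.BV.S2
import Pool.Agent.H51.BV.FB
import Pool.Agent.H55.BV.QJ
import Pool.Agent.H55.BV.VU
import Pool.Agent.H58.BV.DY
import Pool.Agent.H58.BV.PM
import Pool.Agent.H58.BV.RO
import Pool.Agent.H60.BV.GS
import Pool.Agent.H62.BV.IN
import Pool.Agent.H62.BV.LJ
import Pool.Agent.H30.BV.GB
import Pool.Agent.H67.BV.ES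
import Pool.Agent.H67.BV.WM
import Pool.Agent.H69.BV.EA
import Pool.Agent.H71.BV.CB
import Pool.Agent.H78.BV.M9
import Pool.Agent.H78.BV.PL
import Pool.Agent.H84.BV.LS
import Pool.Agent.H87.BV.LL
import Pool.Agent.H89.BV.MV
import Pool.Agent.H56.BV.CL
import Pool.Agent.H56.BV.HB
import Pool.Agent.H56.BV.YV
import Pool.Agent.H87.BV.UU
import Pool.Agent.H87.BV.SW
import Pool.Agent.H1.SC.RS
import Pool.Agent.H5.SC.DV
import Pool.Agent.H5.SC.GR
import Pool.Agent.H5.SC.RO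
import Pool.Agent.H5.SC.SB
import Pool.Agent.H5.SC.FB2

/-!
# MP_04ff0f_nt: splits `n = k + m` for which `p_k ^ 2 - 2` has a bounded number of prime factors

There are absolute constants `R` and `c > 0` such that for every `η > 0` there is `C` with the
following property. For `j = k` and for `j = m`, and for all large `n`, at least `c n / log n` of
the splits `n = k + m` satisfy `Ω(p_j ^ 2 - 2) ≤ R`, and simultaneously
* `Ω(p_k ^ 2 - 2) ≤ 2.8 log log n`, `Ω(p_m ^ 2 - 2) ≤ 2.8 log log n`,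
  `Ω(p_{p_m} ^ 2 - 2) ≤ 3.7 log log n`;
* both the other one of `p_k ^ 2 - 2`, `p_m ^ 2 - 2` and `p_{p_m} ^ 2 - 2` are an integer
  `≤ n ^ η` times a product of at most `C log log n / log log log n` primes, all of them larger
  than `n ^ (log log log n / (C log log n))`.
-/

set_option autoImplicit false

open Real Finset

namespace Pool.Agent.Results.MP_04ff0f_nt.BoundedFactors

open Pool.Agent.H30.BV

/-- The `j`-th prime, `j = 1, 2, ...`, so `p 1 = 2`. -/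
noncomputable def p (j : ℕ) : ℕ := Nat.nth Nat.Prime (j - 1)

/-- The number of prime factors of `a`, counted with multiplicity. -/
def Omega (a : ℕ) : ℕ := a.primeFactorsList.length

/-- The numbers `p_k ^ 2 - 2`, `p_m ^ 2 - 2`, `p_{p_m} ^ 2 - 2` have, counted with multiplicity,
at most `2.8 log log n`, `2.8 log log n`, `3.7 log log n` prime factors. -/
def FewFactors (n k m : ℕ) : Prop :=
  (Omega (p k ^ 2 - 2) : ℝ) ≤ 2.8 * log (log n) ∧
  (Omega (p m ^ 2 - 2) : ℝ) ≤ 2.8 * log (log n) ∧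
  (Omega (p (p m) ^ 2 - 2) : ℝ) ≤ 3.7 * log (log n)

/-- `a` is an integer at most `n ^ η` times a product of at most `C log log n / log log log n`
primes, all of them larger than `n ^ (log log log n / (C log log n))`. -/
def NearlyPrime (η C : ℝ) (n a : ℕ) : Prop :=
  ∃ u v : ℕ, a = u * v ∧ (u : ℝ) ≤ (n : ℝ) ^ η ∧
    (∀ q : ℕ, q.Prime → q ∣ v → (n : ℝ) ^ (log (log (log n)) / (C * log (log n))) < q) ∧
    (Omega v : ℝ) ≤ C * log (log n) / log (log (log n))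

open Classical in
theorem result : ∃ (R : ℕ) (c : ℝ), 0 < c ∧ ∀ η : ℝ, 0 < η → ∃ (C : ℝ) (n₀ : ℕ), 0 < C ∧
    ∀ n : ℕ, n₀ ≤ n → ∀ first : Bool,
    c * n / log n ≤ (((Ico 1 n).filter (fun k => FewFactors n k (n - k) ∧
      Omega (p (if first then k else n - k) ^ 2 - 2) ≤ R ∧
      NearlyPrime η C n (p (if first then n - k else k) ^ 2 - 2) ∧
      NearlyPrime η C n (p (p (n - k)) ^ 2 - 2))).card : ℝ) := by
  -- the moments of `z ^ Ω`
  have hGM := Pool.Agent.H30.PF.gm (Pool.Agent.H30.PF.tr Pool.Agent.H65.PF.sg)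
    Pool.Agent.H65.PF.rt Pool.Agent.H48.PF.bt Pool.Agent.H30.PF.eu
  have hMR := Pool.Agent.H12.PF.mr
  have hEX := Pool.Agent.H30.PF.EX.ex (Pool.Agent.H74.PF.e1 hGM (Pool.Agent.H30.PF.M8.m8 hMR))
    (Pool.Agent.H74.PF.e2 hGM hMR)
  have hPN := Pool.Agent.H74.PF.pn
  -- characters of small conductor
  have hCB : T_CB := Pool.Agent.H71.BV.cb
  have hPB : T_PB := Pool.Agent.H20.BV.pb
  have hZB : T_ZB := Pool.Agent.H20.BV.zb
  have hPR : T_PR := Pool.Agent.H33.BV.pr hPB hZB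
  have hTL : T_TL := Pool.Agent.H31.BV.tl
  have hDV : T_DV := Pool.Agent.H11.BV.dv hPB
  have hC4 : T_C4 := Pool.Agent.H3.BV.c4 hCB hPB hPR hTL hDV
  have hEA : T_EA := Pool.Agent.H69.BV.pf_EA Pool.Agent.H11.BV.rp hPB hZB hCB
  have hLO : T_LO := Pool.Agent.H14.BV.t_LO hC4 hDV hTL hEA Pool.Agent.H14.BV.t_FX hCB
  have hGB : T_GB := Pool.Agent.H30.BV.GB.gb hCB hPB
  have hIN : T_IN := Pool.Agent.H62.BV.inn Pool.Agent.H4.BV.ft
  have hSW : T_SW := Pool.Agent.H87.BV.sw hCB hLO hGB hIN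
  -- large sieve and mean values
  have hLS : T_LS := Pool.Agent.H84.BV.ls Pool.Agent.H60.BV.gs
  have hMV : T_MV := Pool.Agent.H89.BV.pf_MV hLS Pool.Agent.H4.BV.t2 Pool.Agent.H4.BV.t1 hCB
  have hDY : T_DY := Pool.Agent.H58.BV.dy hMV
  have hS1 : T_S1 := Pool.Agent.H17.BV.S1.pf_S1 Pool.Agent.H58.BV.pm
  have hHS : T_HS := Pool.Agent.H62.BV.hs
  have hHB : T_HB := Pool.Agent.H56.BV.hb
  have hBV : T_BV := Pool.Agent.H4.BV.bv hSW hS1 Pool.Agent.H34.BV.s2 hHS hHB hDY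
    Pool.Agent.H3.BV.sb
  have hCL : T_CL := Pool.Agent.H56.BV.cl Pool.Agent.H58.BV.pm
  have hAD : T_AD := Pool.Agent.H17.BV.AD.pf_AD hCL Pool.Agent.H58.BV.ro
  -- the sieve
  have hYV : T_YV := Pool.Agent.H56.BV.yv Pool.Agent.H34.BV.pw
  have hBL : T_BL := Pool.Agent.H29.BV.bl Pool.Agent.H34.BV.pw Pool.Agent.H17.BV.TE.pf_TE
    Pool.Agent.H29.BV.xp hYV Pool.Agent.H67.BV.pf_ES
  have hBU : T_BU := Pool.Agent.H24.BV.bu Pool.Agent.H34.BV.pw Pool.Agent.H29.BV.xp hYV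
    Pool.Agent.H67.BV.pf_ES
  have hLV : T_LV := Pool.Agent.H19.BV.lv_mod
  have hQJ : T_QJ := Pool.Agent.H55.BV.qj hLV Pool.Agent.H62.BV.lj Pool.Agent.H24.BV.b0
  have hVL : T_VL := Pool.Agent.H19.BV.vl
  have hML : T_ML := Pool.Agent.H20.BV.ml
  have hVU : T_VU := Pool.Agent.H55.BV.vu hML (Pool.Agent.H78.BV.m9 hML)
  have hRH : T_RH := Pool.Agent.H29.BV.rh
  have hWM : T_WM := Pool.Agent.H67.BV.pf_WM
  have hLL : T_LL := Pool.Agent.H87.BV.ll hBL hBV hAD hHS hQJ hVL hLV hWM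
  have hUU : T_UU := Pool.Agent.H87.BV.uu hBU hQJ hVU hRH hLV
  have hLB : T_LB := Pool.Agent.H19.BV.lb hLL hUU
  have hFB : T_FB := Pool.Agent.H51.BV.fb hLB Pool.Agent.H78.BV.pl hEX hPN
  -- smooth parts
  have hSB : Pool.Agent.H5.SC.T_SB := Pool.Agent.H5.SC.pf_SB
    (Pool.Agent.H5.SC.pf_DV Pool.Agent.H65.PF.rt Pool.Agent.H48.PF.bt) Pool.Agent.H5.SC.pf_GR
    Pool.Agent.H1.SC.pf_RS
  obtain ⟨R, c, hc, h⟩ := Pool.Agent.H5.SC.pf_FB2 hFB hSB Pool.Agent.H5.SC.pf_RO hPN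
  refine ⟨R, c, hc, fun η hη => ?_⟩
  obtain ⟨C, hC, n₀, h⟩ := h η hη
  have hev : ∀ᶠ n : ℕ in Filter.atTop, (R : ℝ) ≤ 2.8 * log (log (n : ℝ)) := by
    have h1 := (tendsto_log_atTop.comp (tendsto_log_atTop.comp
      tendsto_natCast_atTop_atTop)).const_mul_atTop (by norm_num : (0 : ℝ) < 2.8)
    exact h1.eventually_ge_atTop (R : ℝ)
  obtain ⟨n₁, hn₁⟩ := Filter.eventually_atTop.1 hev
  refine ⟨C, max n₀ n₁, hC, fun n hn first => ?_⟩
  have hR := hn₁ n (le_trans (le_max_right _ _) hn)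
  have hset : Ico 1 n = Icc 1 (n - 1) := by
    ext x
    simp only [Finset.mem_Ico, Finset.mem_Icc]
    omega
  obtain ⟨h1, h2⟩ := h n (le_trans (le_max_left _ _) hn)
  rw [hset]
  cases first with
  | true =>
    refine h1.trans ?_
    norm_cast
    refine Finset.card_le_card fun k hk => ?_
    rw [Finset.mem_filter] at hk ⊢
    obtain ⟨h3, ⟨h4, h5, h6⟩, h7, h8⟩ := hk
    refine ⟨h3, ⟨le_trans ?_ hR, h5, h6⟩, h4, h7, h8⟩
    exact_mod_cast h4
  | false =>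
    refine h2.trans ?_
    norm_cast
    refine Finset.card_le_card_of_injOn (fun m => n - m) ?_ ?_
    · intro m hm
      beta_reduce
      rw [Finset.mem_coe, Finset.mem_filter, Finset.mem_Icc] at hm ⊢
      obtain ⟨⟨h3, h4⟩, ⟨h5, h6, h7⟩, h9, h10⟩ := hm
      have h8 : n - (n - m) = m := by omega
      refine ⟨⟨by omega, by omega⟩, ?_⟩
      rw [h8]
      refine ⟨⟨h5, le_trans ?_ hR, h7⟩, h6, h9, h10⟩
      exact_mod_cast h6
    · intro a ha b hb hab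
      rw [Finset.mem_coe, Finset.mem_filter, Finset.mem_Icc] at ha hb
      simp only at hab
      omega

end Pool.Agent.Results.MP_04ff0f_nt.BoundedFactors
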