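import Pool.Agent.H78.LF.SEL
import Pool.Agent.H78.LF.SDF
import Pool.Agent.H59.LF.MU1
import Pool.Agent.H35.LF.DIV
import Pool.Agent.H39.LF.HAR
import Pool.Agent.H49.LF.CNV
import Pool.Agent.H19.LF.MAJ
import Pool.Agent.H19.LF.MER
import Pool.Agent.H19.LF.BTZ
import Pool.Agent.H19.LF.BTS
import Pool.Agent.H54.LF.LOW
import Pool.Agent.H56.LF.BAD
import Pool.Agent.H13.LF.LLN
import Pool.Agent.H63.LF.HIG
import Pool.Agent.H90.LF.NNB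
import Pool.Agent.H18.LF.CHB
import Pool.Agent.H6.LF.PPW
import Pool.Agent.H55.LF.PNT
import Pool.Agent.H40.LF.CRD
import Pool.Agent.H25.LF.FIN2
import Pool.Agent.H96.LF.TRZ
import Pool.Agent.H40.LF.LBF
import Pool.Agent.H55.LF.BVB
import Pool.Agent.H69.LF.BVP

/-!
# MP_04ff0f_nt: splits `n = k + m` for which `p_k ^ 2 - 2` and `p_m ^ 2 - 2` have a large prime factor

Let `b θ = θ / 2` for `θ ≤ 1 / 2` and `b θ = 1 / 4 + log (1 / (2 (1 - θ)))` for `θ > 1 / 2`. For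
`θ₁, θ₂` in `(0, 1)`, `δ > 0` and every large `n` at least `(1 - b θ₁ - b θ₂ - δ) n` of the splits
`n = k + m` have the following properties: `p_k ^ 2 - 2` has a prime factor `> n ^ θ₁`,
`p_m ^ 2 - 2` has a prime factor `> n ^ θ₂`, and the three numbers `p_k ^ 2 - 2`, `p_m ^ 2 - 2`,
`p_{p_m} ^ 2 - 2` have, with multiplicity, at most `(1 + ε) log log n`, `(1 + ε) log log n`,
`(e + ε) log log n` prime factors. (`1 - 2 b θ > 0` for `θ = 0.61`.)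
-/

set_option autoImplicit false

open Real

namespace Pool.Agent.Results.MP_04ff0f_nt.LargePrimeFactors

/-- The `j`-th prime, `j = 1, 2, ...`, so `p 1 = 2`. -/
noncomputable def p (j : ℕ) : ℕ := Nat.nth Nat.Prime (j - 1)

/-- The three numbers `p_k ^ 2 - 2`, `p_m ^ 2 - 2`, `p_{p_m} ^ 2 - 2` have, counted with
multiplicity, at most `(1 + ε) log log n`, `(1 + ε) log log n`, `(e + ε) log log n` prime
factors. -/
def FewFactors (ε : ℝ) (n k m : ℕ) : Prop :=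
  (ArithmeticFunction.cardFactors (p k ^ 2 - 2) : ℝ) ≤ (1 + ε) * log (log n) ∧
  (ArithmeticFunction.cardFactors (p m ^ 2 - 2) : ℝ) ≤ (1 + ε) * log (log n) ∧
  (ArithmeticFunction.cardFactors (p (p m) ^ 2 - 2) : ℝ) ≤ (exp 1 + ε) * log (log n)

/-- `a` has a prime factor larger than `y`. -/
def LargeFactor (y : ℝ) (a : ℕ) : Prop := ∃ l : ℕ, l.Prime ∧ l ∣ a ∧ y < l

/-- `θ / 2` for `θ ≤ 1 / 2`, and `1 / 4 + log (1 / (2 (1 - θ)))` for `θ > 1 / 2`. -/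
noncomputable def b (θ : ℝ) : ℝ := if θ ≤ 1 / 2 then θ / 2 else 1 / 4 + log (1 / (2 * (1 - θ)))

open Classical in
theorem result : ∀ θ₁ θ₂ ε δ : ℝ, 0 < θ₁ → θ₁ < 1 → 0 < θ₂ → θ₂ < 1 → 0 < ε → 0 < δ →
    ∃ n₀ : ℕ, ∀ n : ℕ, n₀ ≤ n →
      (1 - b θ₁ - b θ₂ - δ) * n ≤ (((Finset.Ico 1 n).filter (fun k => FewFactors ε n k (n - k) ∧
        LargeFactor ((n : ℝ) ^ θ₁) (p k ^ 2 - 2) ∧
        LargeFactor ((n : ℝ) ^ θ₂) (p (n - k) ^ 2 - 2))).card : ℝ) := by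
  have hPNT := Pool.Agent.H55.LF.pf_PNT Pool.Agent.H35.LF.pf_DIV Pool.Agent.H59.LF.pf_MU1
  have hSEL := Pool.Agent.H78.LF.pf_SEL
  have hSDF := Pool.Agent.H78.LF.pf_SDF Pool.Agent.H39.LF.pf_HAR
  have hBTS := Pool.Agent.H19.LF.pf_BTS (Pool.Agent.H19.LF.pf_BTZ hSEL hSDF)
  have hNNB := Pool.Agent.H90.LF.pf_NNB hBTS
  have hMER := Pool.Agent.H19.LF.pf_MER
  have hBVP := Pool.Agent.H69.LF.pf_BVP Pool.Agent.H55.LF.pf_BVB
  have hMAJ := Pool.Agent.H19.LF.pf_MAJ Pool.Agent.H96.LF.pf_TRZ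
  have hCRD := Pool.Agent.H40.LF.pf_CRD hNNB hMER
  have hLBF := Pool.Agent.H40.LF.pf_LBF hPNT hBVP hMAJ Pool.Agent.H13.LF.pf_LLN hCRD hMER
  have hLOW := Pool.Agent.H54.LF.pf_LOW hLBF Pool.Agent.H49.LF.pf_CNV hCRD
  have hHIG := Pool.Agent.H63.LF.pf_HIG hNNB hMER
  have hCHB := Pool.Agent.H18.LF.pf_CHB (Pool.Agent.H6.LF.pf_PPW hNNB) hBTS
  have hBAD := Pool.Agent.H56.LF.pf_BAD hCHB hLOW hHIG hPNT
  have hFIN := Pool.Agent.H25.LF.pf_FIN2 hBAD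
  intro θ₁ θ₂ ε δ h1 h1' h2 h2' hε hδ
  obtain ⟨n₀, h⟩ := hFIN θ₁ θ₂ ε δ h1 h1' h2 h2' hε hδ
  refine ⟨max n₀ 1, fun n hn => ?_⟩
  have hn0 : n₀ ≤ n := le_trans (le_max_left _ _) hn
  have he : Finset.Icc 1 (n - 1) = Finset.Ico 1 n := by
    ext k
    rw [Finset.mem_Icc, Finset.mem_Ico]
    have hn1 : 1 ≤ n := le_trans (le_max_right _ _) hn
    omega
  have h3 := h n hn0
  rw [he] at h3
  refine h3.trans (le_of_eq ?_)
  rfl

end Pool.Agent.Results.MP_04ff0f_nt.LargePrimeFactors
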