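import Pool.Agent.H4.SCF.Main
import Pool.Agent.H2.SC.WM
import Pool.Agent.H2.SC.NUM
import Pool.Agent.H5.SC.SA
import Pool.Agent.H5.SC.SB
import Pool.Agent.H5.SC.RO
import Pool.Agent.H5.SC.DV
import Pool.Agent.H1.SC.GR
import Pool.Agent.H1.SC.RS
import Pool.Agent.H48.PF.BT
import Pool.Agent.H65.PF.RT
import Pool.Agent.H74.PF.PN
import Pool.Agent.H78.LF.SEL
import Pool.Agent.H78.LF.SDF
import Pool.Agent.H59.LF.MU1
import Pool.Agent.H35.LF.DIV
import Pool.Agent.H39.LF.HAR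
import Pool.Agent.H49.LF.CNV
import Pool.Agent.H19.LF.MAJ
import Pool.Agent.H19.LF.MER
import Pool.Agent.H19.LF.BTZ
import Pool.Agent.H19.LF.BTS
import Pool.Agent.H54.LF.LOW
import Pool.Agent.H13.LF.LLN
import Pool.Agent.H63.LF.HIG
import Pool.Agent.H90.LF.NNB
import Pool.Agent.H6.LF.PPW
import Pool.Agent.H55.LF.PNT
import Pool.Agent.H40.LF.CRD
import Pool.Agent.H96.LF.TRZ
import Pool.Agent.H40.LF.LBF
import Pool.Agent.H55.LF.BVB
import Pool.Agent.H69.LF.BVP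

/-!
# MP_04ff0f_nt: splits `n = k + m` for which `p_k ^ 2 - 2`, `p_m ^ 2 - 2`, `p_{p_m} ^ 2 - 2` have
few prime factors apart from a small cofactor

Let `F t r = log (1 + t / (r (2 - t)))` for `t ≤ r / 2` (with a correction for `t > r / 2`). For
every `η, δ > 0` there are constants `R` and `C` such that for `t₁, t₂` in `(0, 2)`, `r₁, r₂ ≥ 2`
and every large `n` at least `(1 - F t₁ r₁ - F t₂ r₂ - δ) n` of the splits `n = k + m` have all the
following properties.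

* `p_k ^ 2 - 2` has a divisor `> n ^ t₁` with at most `r₁` prime factors, and `p_m ^ 2 - 2` has a
  divisor `> n ^ t₂` with at most `r₂` prime factors;
* both `p_k ^ 2 - 2` and `p_m ^ 2 - 2` are an integer `≤ n ^ η` times a product of at most `R`
  primes which are all larger than `n ^ (1 / R)`;
* `p_{p_m} ^ 2 - 2` is an integer `≤ n ^ η` times a product of at most
  `C log log n / log log log n` primes.

As `F t r → 0` for `r → ∞`, the last two items hold for all but `2 δ n` of the splits, and as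
`F 1.05 2 < 1 / 2` for a positive proportion of the splits both `p_k ^ 2 - 2` and `p_m ^ 2 - 2` (at
most `n ^ (2 + o(1))`) have a divisor `> n ^ 1.05` which is a prime or a product of two primes.
-/

set_option autoImplicit false

open Real

namespace Pool.Agent.Results.MP_04ff0f_nt.SmallCofactors

/-- The `j`-th prime, `j = 1, 2, ...`, so `p 1 = 2`. -/
noncomputable def p (j : ℕ) : ℕ := Nat.nth Nat.Prime (j - 1)

/-- The number of prime factors of `a`, counted with multiplicity. -/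
def Omega (a : ℕ) : ℕ := a.primeFactorsList.length

/-- `a` has a divisor larger than `y` with at most `r` prime factors. -/
def HasDivisor (r : ℕ) (y : ℝ) (a : ℕ) : Prop := ∃ d : ℕ, d ∣ a ∧ Omega d ≤ r ∧ y < d

/-- `a` is an integer `u ≤ A` times a product `v` of at most `R` primes, all larger than `y`. -/
def NearlyPrime (A y R : ℝ) (a : ℕ) : Prop := ∃ u v : ℕ, a = u * v ∧ (u : ℝ) ≤ A ∧
  (∀ q : ℕ, q.Prime → q ∣ v → y < q) ∧ (Omega v : ℝ) ≤ R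

/-- `log (1 + t / (r (2 - t)))` for `t ≤ r / 2`; the second term is `0` then. -/
noncomputable def F (t : ℝ) (r : ℕ) : ℝ :=
  log (1 + min (t / r) (1 / 2) / (2 - t)) + 2 / (3 - t) *
    log ((2 - t + max (t / r) (1 / 2)) / (2 * (1 - max (t / r) (1 / 2)) * (5 / 2 - t)))

/-- All the properties of the split `n = k + m`. -/
def Good (t₁ t₂ η R C : ℝ) (r₁ r₂ n k m : ℕ) : Prop :=
  HasDivisor r₁ ((n : ℝ) ^ t₁) (p k ^ 2 - 2) ∧ HasDivisor r₂ ((n : ℝ) ^ t₂) (p m ^ 2 - 2) ∧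
  NearlyPrime ((n : ℝ) ^ η) ((n : ℝ) ^ (1 / R)) R (p k ^ 2 - 2) ∧
  NearlyPrime ((n : ℝ) ^ η) ((n : ℝ) ^ (1 / R)) R (p m ^ 2 - 2) ∧
  NearlyPrime ((n : ℝ) ^ η) ((n : ℝ) ^ (log (log (log n)) / (C * log (log n))))
    (C * log (log n) / log (log (log n))) (p (p m) ^ 2 - 2)

open Classical in
theorem result :
    (∀ η δ : ℝ, 0 < η → 0 < δ → ∃ R C : ℝ, 0 < R ∧ 0 < C ∧
      ∀ (t₁ t₂ : ℝ) (r₁ r₂ : ℕ), 2 ≤ r₁ → 2 ≤ r₂ → 0 < t₁ → t₁ < 2 → 0 < t₂ → t₂ < 2 →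
      ∃ n₀ : ℕ, ∀ n : ℕ, n₀ ≤ n → (1 - F t₁ r₁ - F t₂ r₂ - δ) * n ≤
        (((Finset.Ico 1 n).filter (fun k => Good t₁ t₂ η R C r₁ r₂ n k (n - k))).card : ℝ)) ∧
    (∀ t : ℝ, 0 < t → t < 2 → ∀ e : ℝ, 0 < e → ∃ r₀ : ℕ, 2 ≤ r₀ ∧ ∀ r : ℕ, r₀ ≤ r → F t r < e) ∧
    F 1.05 2 < 1 / 2 ∧ F 1.32 3 < 1 / 2 ∧ F 1.44 4 < 1 / 2 := by
  -- the prime number theorem, the Brun-Titchmarsh inequality, primes in progressions on average
  have hPNT := Pool.Agent.H55.LF.pf_PNT Pool.Agent.H35.LF.pf_DIV Pool.Agent.H59.LF.pf_MU1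
  have hSEL := Pool.Agent.H78.LF.pf_SEL
  have hSDF := Pool.Agent.H78.LF.pf_SDF Pool.Agent.H39.LF.pf_HAR
  have hBTS := Pool.Agent.H19.LF.pf_BTS (Pool.Agent.H19.LF.pf_BTZ hSEL hSDF)
  have hNNB := Pool.Agent.H90.LF.pf_NNB hBTS
  have hMER := Pool.Agent.H19.LF.pf_MER
  have hBVP := Pool.Agent.H69.LF.pf_BVP Pool.Agent.H55.LF.pf_BVB
  have hMAJ := Pool.Agent.H19.LF.pf_MAJ Pool.Agent.H96.LF.pf_TRZ
  have hCRD := Pool.Agent.H40.LF.pf_CRD hNNB hMER
  have hLBF := Pool.Agent.H40.LF.pf_LBF hPNT hBVP hMAJ Pool.Agent.H13.LF.pf_LLN hCRD hMER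
  have hLOW := Pool.Agent.H54.LF.pf_LOW hLBF Pool.Agent.H49.LF.pf_CNV hCRD
  have hHIG := Pool.Agent.H63.LF.pf_HIG hNNB hMER
  have hPPW := Pool.Agent.H6.LF.pf_PPW hNNB
  -- divisors with few prime factors
  have hWM := Pool.Agent.H2.SC.pf_WM hLOW hHIG hPPW hPNT
  -- smooth parts
  have hDV := Pool.Agent.H5.SC.pf_DV Pool.Agent.H65.PF.rt Pool.Agent.H48.PF.bt
  have hSA := Pool.Agent.H5.SC.pf_SA hDV
  have hSB := Pool.Agent.H5.SC.pf_SB hDV Pool.Agent.H1.SC.pf_GR Pool.Agent.H1.SC.pf_RS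
  -- the splits
  have hFIN := Pool.Agent.H4.SCF.pf_FIN hWM hSA hSB Pool.Agent.H5.SC.pf_RO Pool.Agent.H74.PF.pn
  refine ⟨?_, ?_, Pool.Agent.H2.SC.pf_NUM⟩
  · intro η δ hη hδ
    obtain ⟨R, C, hR, hC, h⟩ := hFIN η δ hη hδ
    refine ⟨R, C, hR, hC, fun t₁ t₂ r₁ r₂ h1 h2 h3 h4 h5 h6 => ?_⟩
    obtain ⟨n₀, h7⟩ := h t₁ t₂ r₁ r₂ h1 h2 h3 h4 h5 h6
    refine ⟨max n₀ 1, fun n hn => ?_⟩
    have hn0 : n₀ ≤ n := le_trans (le_max_left _ _) hn
    have he : Finset.Icc 1 (n - 1) = Finset.Ico 1 n := by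
      ext k
      rw [Finset.mem_Icc, Finset.mem_Ico]
      have hn1 : 1 ≤ n := le_trans (le_max_right _ _) hn
      omega
    have h8 := h7 n hn0
    rw [he] at h8
    exact h8.trans (le_of_eq (congrArg (fun s : Finset ℕ => (s.card : ℝ))
      (Finset.filter_congr (fun k _ => Iff.rfl))))
  · intro t ht ht' e he
    exact Pool.Agent.H2.SC.pf_LIM t ht ht' e he

end Pool.Agent.Results.MP_04ff0f_nt.SmallCofactors
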